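import Pool.Agent.N343.AM.Stm

/-!
# AM/CLO: the subshift is closed, invariant and has two points

Statement: helper343, Lean proof: helper681.
-/

set_option autoImplicit false

namespace Pool.Agent.N681.AM.CLO

open Pool.Agent.N343.AM

lemma win_congr {x y : ℕ → Bool} {n : ℕ} (h : ∀ j < n, x j = y j) : win x 0 n = win y 0 n := by
  unfold win
  refine List.map_congr_left fun j hj => ?_
  rw [zero_add]
  exact h j (List.mem_range.1 hj)

lemma win_succ (x : ℕ → Bool) (n : ℕ) :
    win x 0 (n + 1) = x 0 :: win (fun i => x (i + 1)) 0 n := by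
  unfold win
  rw [List.range_succ_eq_map, List.map_cons, List.map_map]
  simp only [zero_add, List.cons.injEq, true_and]
  rfl

lemma closed_win (S : Set Wd) (n : ℕ) : IsClosed {x : ℕ → Bool | win x 0 n ∈ S} := by
  let ext : (Fin n → Bool) → ℕ → Bool := fun f j => if h : j < n then f ⟨j, h⟩ else false
  have h1 : {x : ℕ → Bool | win x 0 n ∈ S} =
      (fun (x : ℕ → Bool) (i : Fin n) => x i) ⁻¹' {f | win (ext f) 0 n ∈ S} := by
    ext x
    simp only [Set.mem_ofPred_eq, Set.mem_preimage]
    rw [win_congr (x := ext fun i : Fin n => x i) (y := x)]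
    intro j hj
    simp only [ext, dif_pos hj]
  rw [h1]
  refine IsClosed.preimage ?_ (isClosed_discrete _)
  exact continuous_pi fun i => continuous_apply _

lemma single_mem {W : ℕ → Set Wd} {P : ℕ → Wd} {m : ℕ → ℕ} (h : Sys W P m) (b : Bool) :
    [b] ∈ Fac (W 0) := by
  refine ⟨[], [], [[b]], ?_, by simp⟩
  intro w hw
  rw [List.mem_singleton] at hw
  subst hw
  rw [h.w0]
  left
  rfl

lemma point (hE : S_EMB) {W : ℕ → Set Wd} {P : ℕ → Wd} {m : ℕ → ℕ} (h : Sys W P m) (b : Bool) :
    ∃ x ∈ XX W, x 0 = b := by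
  have h1 : 2 * ([b] : Wd).length ≤ m (0 + 1) := by
    have h2 := h.gr 0
    rw [h.m0] at h2
    unfold DD at h2
    simp only [List.length_cons, List.length_nil]
    omega
  obtain ⟨x, hx, hw⟩ := (hE W P m h 0 [b] (single_mem h b) h1).2.1
  refine ⟨x, hx, ?_⟩
  simpa [win] using hw

theorem main (hE : S_EMB) : S_CLO := by
  intro W P m h
  refine ⟨?_, ?_, point hE h true, point hE h false⟩
  · have h1 : XX W = ⋂ n, ⋂ k, {x : ℕ → Bool | win x 0 n ∈ Fac (W k)} := by
      ext x
      simp [XX]
    rw [h1]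
    exact isClosed_iInter fun n => isClosed_iInter fun k => closed_win _ n
  · intro x hx n k
    obtain ⟨a, b, hab⟩ := hx (n + 1) k
    refine ⟨a ++ [x 0], b, ?_⟩
    rw [win_succ] at hab
    simpa using hab

end Pool.Agent.N681.AM.CLO
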